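import Pool.Agent.Helper50_DP.Stmts

/-!
# Squad DP, module CLA: the third power of a form times the derivative in its coefficients
-/

universe u

open MvPolynomial

noncomputable section

namespace Pool.Agent.DP.H31

section dual

variable {R : Type*} [CommRing R]

/-- the dual number with the two components `x`, `y` -/
def dn (x y : R) : DualNumber R := TrivSqZeroExt.inl x + TrivSqZeroExt.inr y

@[simp] theorem fst_dn (x y : R) : (dn x y).fst = x := by simp [dn]

@[simp] theorem snd_dn (x y : R) : (dn x y).snd = y := by simp [dn]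

theorem dn_ext {z : DualNumber R} {x y : R} (h1 : z.fst = x) (h2 : z.snd = y) : z = dn x y :=
  TrivSqZeroExt.ext (by rw [h1, fst_dn]) (by rw [h2, snd_dn])

theorem fst_mul' (x y : DualNumber R) : (x * y).fst = x.fst * y.fst := TrivSqZeroExt.fst_mul x y

theorem snd_mul' (x y : DualNumber R) : (x * y).snd = x.fst * y.snd + y.fst * x.snd := by
  rw [TrivSqZeroExt.snd_mul, smul_eq_mul, op_smul_eq_mul, mul_comm x.snd]

theorem fst_pow' (x : DualNumber R) (n : ℕ) : (x ^ n).fst = x.fst ^ n := TrivSqZeroExt.fst_pow x n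

theorem snd_pow' (x : DualNumber R) (n : ℕ) : (x ^ n).snd = n * x.fst ^ (n - 1) * x.snd := by
  induction n with
  | zero => simp
  | succ n ih =>
    rw [pow_succ, snd_mul', ih, fst_pow']
    rcases n with _ | n
    · simp
    · simp only [Nat.add_sub_cancel, Nat.cast_add, Nat.cast_one]
      ring

theorem fst_two : (2 : DualNumber R).fst = 2 := by
  rw [← one_add_one_eq_two, TrivSqZeroExt.fst_add, TrivSqZeroExt.fst_one, one_add_one_eq_two]

theorem snd_two : (2 : DualNumber R).snd = 0 := by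
  rw [← one_add_one_eq_two, TrivSqZeroExt.snd_add, TrivSqZeroExt.snd_one, add_zero]

theorem taylor {σ : Type*} [DecidableEq σ] (v : σ → R) (s₀ : σ) (W : R) (P : MvPolynomial σ ℤ) :
    (aeval (fun s => dn (v s) (if s = s₀ then W else 0)) P : DualNumber R) =
      dn (aeval v P) (W * aeval v (pderiv s₀ P)) := by
  induction P using MvPolynomial.induction_on with
  | C z =>
    apply dn_ext
    · simp
    · simp
  | add p q hp hq =>
    rw [map_add, hp, hq]
    apply dn_ext
    · simp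
    · simp only [TrivSqZeroExt.snd_add, snd_dn, map_add, mul_add]
  | mul_X p n hp =>
    rw [map_mul, hp, aeval_X]
    apply dn_ext
    · rw [fst_mul', fst_dn, fst_dn, map_mul, aeval_X]
    · rw [snd_mul', fst_dn, snd_dn, fst_dn, snd_dn, Derivation.leibniz, pderiv_X, map_add,
        smul_eq_mul, smul_eq_mul, map_mul, map_mul, aeval_X]
      by_cases h : n = s₀
      · subst h
        rw [if_pos rfl, Pi.single_eq_same, map_one]
        ring
      · rw [if_neg h, Pi.single_eq_of_ne h, map_zero]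
        ring

end dual

section main

variable {N : ℕ} {R : Type*} [CommRing R]

/-- the perturbed coefficients -/
def pa (a : Fin N → Fin 3 → R) (i : Fin N) (c : Fin 3) (W : R) : Fin N → Fin 3 → DualNumber R :=
  fun p q => dn (a p q) (if (p, q) = (i, c) then W else 0)

/-- the jets as dual numbers -/
def px (X : Fin 3 → Fin 3 → R) : Fin 3 → Fin 3 → DualNumber R := fun r q => dn (X r q) 0

theorem evP_pa (a : Fin N → Fin 3 → R) (X : Fin 3 → Fin 3 → R) (i : Fin N) (c : Fin 3) (W : R)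
    (P : Pol N) : evP (pa a i c W) (px X) P = dn (evP a X P) (W * evP a X (dA i c P)) := by
  unfold evP dA
  rw [← taylor]
  congr 2
  funext s
  rcases s with ⟨p, q⟩ | ⟨r, q⟩
  · show dn (a p q) _ = dn (a p q) _
    congr 1
    simp only [Sum.inl.injEq]
  · show dn (X r q) 0 = dn (X r q) _
    rw [if_neg (by simp)]

theorem px_chg (lam f s t w : R) (X : Fin 3 → Fin 3 → R) :
    px (chg lam f s t w X) = chg (dn lam 0) (dn f 0) (dn s 0) (dn t 0) (dn w 0) (px X) := by
  funext r q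
  fin_cases r
  · show dn (lam * X 0 q) 0 = dn lam 0 * dn (X 0 q) 0
    symm
    apply dn_ext <;> simp [fst_mul', snd_mul']
  · show dn (lam * f * X 1 q + s * X 0 q) 0 =
      dn lam 0 * dn f 0 * dn (X 1 q) 0 + dn s 0 * dn (X 0 q) 0
    symm
    apply dn_ext <;> simp [fst_mul', snd_mul']
  · show dn (lam * f ^ 2 * X 2 q + t * X 1 q + w * X 0 q) 0 =
      dn lam 0 * dn f 0 ^ 2 * dn (X 2 q) 0 + dn t 0 * dn (X 1 q) 0 + dn w 0 * dn (X 0 q) 0
    symm
    apply dn_ext <;> simp [fst_mul', snd_mul', fst_pow', snd_pow']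

theorem lf_pa (a : Fin N → Fin 3 → R) (x : Fin 3 → R) (i : Fin N) (c : Fin 3) (W : R)
    (p : Fin N) : lf (pa a i c W p) (fun q => dn (x q) 0) =
      dn (lf (a p) x) (if p = i then W * x c else 0) := by
  unfold lf pa
  apply dn_ext
  · rw [TrivSqZeroExt.fst_sum]
    refine Finset.sum_congr rfl fun q _ => ?_
    rw [fst_mul', fst_dn, fst_dn]
  · rw [TrivSqZeroExt.snd_sum]
    have h : ∀ q : Fin 3, (dn (a p q) (if (p, q) = (i, c) then W else 0) * dn (x q) 0).snd =
        if p = i then (if q = c then W * x q else 0) else 0 := by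
      intro q
      rw [snd_mul', fst_dn, snd_dn, fst_dn, snd_dn, mul_zero, zero_add]
      by_cases h1 : p = i
      · by_cases h2 : q = c
        · rw [if_pos (by rw [h1, h2]), if_pos h1, if_pos h2, mul_comm]
        · rw [if_neg (fun h => h2 (Prod.mk.inj h).2), if_pos h1, if_neg h2, mul_zero]
      · rw [if_neg (fun h => h1 (Prod.mk.inj h).1), if_neg h1, mul_zero]
    rw [Finset.sum_congr rfl fun q _ => h q]
    by_cases h1 : p = i
    · simp only [if_pos h1]
      rw [Finset.sum_ite_eq' Finset.univ c, if_pos (Finset.mem_univ c)]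
    · simp only [if_neg h1, Finset.sum_const_zero]

theorem evP_ell (a : Fin N → Fin 3 → R) (X : Fin 3 → Fin 3 → R) (i : Fin N) :
    evP a X (ell i) = lf (a i) (X 0) := by
  unfold ell evP lf
  rw [map_sum]
  refine Finset.sum_congr rfl fun c _ => ?_
  rw [map_mul, aeval_X, aeval_X]
  rfl

theorem fst_det3 (x y z : Fin 3 → DualNumber R) : (det3 x y z).fst =
    det3 (fun q => (x q).fst) (fun q => (y q).fst) (fun q => (z q).fst) := by
  unfold det3
  rw [Matrix.det_fin_three, Matrix.det_fin_three]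
  simp [fst_mul']

theorem inv_dA {e m : ℕ} (i : Fin N) (c : Fin 3) {P : Pol N} (h : Inv.{u} e m P) :
    Inv.{u} e m (dA i c P) := by
  intro R _ a X lam f s t w
  have h1 := h (DualNumber R) (pa a i c 1) (px X) (dn lam 0) (dn f 0) (dn s 0) (dn t 0) (dn w 0)
  rw [← px_chg, evP_pa, evP_pa] at h1
  have h2 := congrArg TrivSqZeroExt.snd h1
  rw [snd_dn, snd_mul', snd_dn, snd_mul', fst_dn, fst_mul', snd_pow', snd_pow', snd_dn, fst_dn,
    fst_pow', fst_pow', snd_dn, fst_dn, fst_dn] at h2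
  rw [one_mul] at h2
  rw [h2]
  ring

/-- the main step -/
theorem claCore {ν M : ℕ} {P : Pol N} {R : Type u} [CommRing R] {p q l : Fin N}
    (hM : ∀ (R : Type u) [CommRing R] (a : Fin N → Fin 3 → R) (X : Fin 3 → Fin 3 → R)
      (η₀ η₁ η₂ : R),
      lf (a q) (X 0) = η₀ * lf (a p) (X 0) →
      lf (a q) (X 1) = η₁ * lf (a p) (X 0) + η₀ * lf (a p) (X 1) →
      lf (a q) (X 2) = η₂ * lf (a p) (X 0) + 2 * η₁ * lf (a p) (X 1) + η₀ * lf (a p) (X 2) →
      lf (a p) (X 0) ^ ν ∣ det3 (a p) (a q) (a l) ^ M * evP a X P)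
    (a : Fin N → Fin 3 → R) (X : Fin 3 → Fin 3 → R) (η₀ η₁ η₂ : R)
    (h0 : lf (a q) (X 0) = η₀ * lf (a p) (X 0))
    (h1 : lf (a q) (X 1) = η₁ * lf (a p) (X 0) + η₀ * lf (a p) (X 1))
    (h2 : lf (a q) (X 2) = η₂ * lf (a p) (X 0) + 2 * η₁ * lf (a p) (X 1) + η₀ * lf (a p) (X 2))
    (i : Fin N) (c : Fin 3) (W k₀ k₁ k₂ : R)
    (hW : p = i → lf (a p) (X 0) ∣ W)
    (r0 : (if q = i then W * X 0 c else 0) = η₀ * (if p = i then W * X 0 c else 0) +
      k₀ * lf (a p) (X 0))
    (r1 : (if q = i then W * X 1 c else 0) = η₁ * (if p = i then W * X 0 c else 0) +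
      k₁ * lf (a p) (X 0) + (η₀ * (if p = i then W * X 1 c else 0) + k₀ * lf (a p) (X 1)))
    (r2 : (if q = i then W * X 2 c else 0) = η₂ * (if p = i then W * X 0 c else 0) +
      k₂ * lf (a p) (X 0) + 2 * (η₁ * (if p = i then W * X 1 c else 0) + k₁ * lf (a p) (X 1)) +
      (η₀ * (if p = i then W * X 2 c else 0) + k₀ * lf (a p) (X 2))) :
    lf (a p) (X 0) ^ ν ∣ det3 (a p) (a q) (a l) ^ (M + 1) * (W * evP a X (dA i c P)) := by
  have hx : ∀ r, px X r = fun q => dn (X r q) 0 := fun r => rfl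
  have h3 := hM (DualNumber R) (pa a i c W) (px X) (dn η₀ k₀) (dn η₁ k₁) (dn η₂ k₂) (by
    rw [hx, lf_pa, lf_pa]
    symm
    apply dn_ext
    · rw [fst_mul', fst_dn, fst_dn, h0]
    · rw [snd_mul', fst_dn, snd_dn, fst_dn, snd_dn, r0]
      ring) (by
    rw [hx, hx, lf_pa, lf_pa, lf_pa]
    symm
    apply dn_ext
    · rw [TrivSqZeroExt.fst_add, fst_mul', fst_mul', fst_dn, fst_dn, fst_dn, fst_dn, h1]
    · rw [TrivSqZeroExt.snd_add, snd_mul', snd_mul', fst_dn, snd_dn, fst_dn, snd_dn, fst_dn,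
        snd_dn, fst_dn, snd_dn, r1]
      ring) (by
    rw [hx, hx, hx, lf_pa, lf_pa, lf_pa, lf_pa]
    symm
    apply dn_ext
    · rw [TrivSqZeroExt.fst_add, TrivSqZeroExt.fst_add, fst_mul', fst_mul', fst_mul', fst_mul',
        fst_dn, fst_dn, fst_dn, fst_dn, fst_dn, fst_dn, h2]
      rw [fst_two]
    · rw [TrivSqZeroExt.snd_add, TrivSqZeroExt.snd_add, snd_mul', snd_mul', snd_mul', snd_mul',
        fst_mul', fst_dn, snd_dn, fst_dn, snd_dn, fst_dn, snd_dn, fst_dn, snd_dn, fst_dn, snd_dn,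
        fst_dn, snd_dn, r2]
      rw [fst_two, snd_two]
      ring)
  rw [hx, lf_pa, evP_pa] at h3
  obtain ⟨y, hy⟩ := h3
  have hf := congrArg TrivSqZeroExt.fst hy
  have hs := congrArg TrivSqZeroExt.snd hy
  rw [fst_mul', fst_mul', fst_pow', fst_pow', fst_dn, fst_dn] at hf
  rw [snd_mul', snd_mul', snd_pow', snd_pow', fst_pow', fst_pow', fst_dn, snd_dn, fst_dn, snd_dn]
    at hs
  have hd : (det3 (pa a i c W p) (pa a i c W q) (pa a i c W l)).fst =
      det3 (a p) (a q) (a l) := by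
    have hpa : ∀ p, (fun q' => (pa a i c W p q').fst) = a p := fun p => funext fun q' => fst_dn _ _
    rw [fst_det3, hpa, hpa, hpa]
  rw [hd] at hf hs
  set d := det3 (a p) (a q) (a l) with hd'
  set d₁ := (det3 (pa a i c W p) (pa a i c W q) (pa a i c W l)).snd with hd₁
  set U := lf (a p) (X 0) with hU
  -- the derivative of the power
  have hν : U ^ ν ∣ (ν : R) * U ^ (ν - 1) * (if p = i then W * X 0 c else 0) := by
    by_cases h : p = i
    · obtain ⟨z, hz⟩ := hW h
      rw [if_pos h, hz]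
      rcases ν with _ | ν
      · simp
      · refine ⟨(ν + 1 : ℕ) * z * X 0 c, ?_⟩
        rw [Nat.add_sub_cancel, pow_succ]
        ring
    · rw [if_neg h, mul_zero]
      exact dvd_zero _
  obtain ⟨z, hz⟩ := hν
  rw [hz] at hs
  have hM1 : d * ((M : R) * d ^ (M - 1) * d₁) = M * d₁ * d ^ M := by
    rcases M with _ | M
    · simp
    · rw [Nat.add_sub_cancel, pow_succ]
      ring
  refine ⟨d * (y.snd + z * y.fst) - M * d₁ * y.fst, ?_⟩
  have key : d * (d ^ M * (W * evP a X (dA i c P)) + evP a X P * ((M : R) * d ^ (M - 1) * d₁)) =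
      d * (U ^ ν * y.snd + y.fst * (U ^ ν * z)) := by rw [hs]
  have key2 : d * (evP a X P * ((M : R) * d ^ (M - 1) * d₁)) = M * d₁ * (U ^ ν * y.fst) := by
    rw [← hf]
    linear_combination (evP a X P) * hM1
  rw [mul_add, key2] at key
  rw [pow_succ]
  linear_combination key

/-- **CLA.** -/
theorem cla : ClaStmt.{u} := by
  intro N ν e m i c P hP
  refine ⟨?_, ?_⟩
  · intro R _ a X lam f s t w
    rw [map_mul, map_mul, map_pow, map_pow, evP_ell, evP_ell, inv_dA i c hP.inv R a X lam f s t w]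
    have : lf (a i) (chg lam f s t w X 0) = lam * lf (a i) (X 0) := by
      unfold lf
      rw [Finset.mul_sum]
      refine Finset.sum_congr rfl fun q _ => ?_
      show a i q * (lam * X 0 q) = _
      ring
    rw [this]
    ring
  · intro p q l hpq hlp hlq
    obtain ⟨M, hM⟩ := hP.nod p q l hpq hlp hlq
    refine ⟨M + 1, fun R _ a X η₀ η₁ η₂ h0 h1 h2 => ?_⟩
    rw [map_mul, map_pow, evP_ell]
    by_cases hp : p = i
    · have hq : q ≠ i := fun h => hpq.ne (hp.trans h.symm)
      have := claCore hM a X η₀ η₁ η₂ h0 h1 h2 i c (lf (a p) (X 0) ^ 3)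
        (-η₀ * lf (a p) (X 0) ^ 2 * X 0 c)
        (-η₁ * lf (a p) (X 0) ^ 2 * X 0 c + η₀ * lf (a p) (X 0) * X 0 c * lf (a p) (X 1) -
          η₀ * lf (a p) (X 0) ^ 2 * X 1 c)
        (-η₂ * lf (a p) (X 0) ^ 2 * X 0 c + 2 * η₁ * lf (a p) (X 0) * X 0 c * lf (a p) (X 1) -
          2 * η₀ * X 0 c * lf (a p) (X 1) ^ 2 + 2 * η₀ * lf (a p) (X 0) * lf (a p) (X 1) * X 1 c -
          2 * η₁ * lf (a p) (X 0) ^ 2 * X 1 c + η₀ * lf (a p) (X 0) * X 0 c * lf (a p) (X 2) -
          η₀ * lf (a p) (X 0) ^ 2 * X 2 c)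
        (fun _ => dvd_pow_self _ (by norm_num))
        (by rw [if_neg hq, if_pos hp]; ring) (by rw [if_neg hq, if_pos hp, if_pos hp]; ring)
        (by rw [if_neg hq, if_pos hp, if_pos hp, if_pos hp]; ring)
      rw [← hp]
      rw [← hp] at this
      exact this
    · by_cases hq : q = i
      · have := claCore hM a X η₀ η₁ η₂ h0 h1 h2 i c ((η₀ * lf (a p) (X 0)) ^ 3)
          (η₀ ^ 3 * lf (a p) (X 0) ^ 2 * X 0 c)
          (η₀ ^ 3 * lf (a p) (X 0) ^ 2 * X 1 c -
            η₀ ^ 3 * lf (a p) (X 0) * X 0 c * lf (a p) (X 1))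
          (η₀ ^ 3 * lf (a p) (X 0) ^ 2 * X 2 c -
            2 * η₀ ^ 3 * lf (a p) (X 0) * lf (a p) (X 1) * X 1 c +
            2 * η₀ ^ 3 * X 0 c * lf (a p) (X 1) ^ 2 -
            η₀ ^ 3 * lf (a p) (X 0) * X 0 c * lf (a p) (X 2))
          (fun h => absurd h hp)
          (by rw [if_pos hq, if_neg hp]; ring) (by rw [if_pos hq, if_neg hp, if_neg hp]; ring)
          (by rw [if_pos hq, if_neg hp, if_neg hp, if_neg hp]; ring)
        rw [← h0, hq] at this
        rw [hq]
        exact this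
      · have := claCore hM a X η₀ η₁ η₂ h0 h1 h2 i c 1 0 0 0
          (fun h => absurd h hp)
          (by rw [if_neg hq, if_neg hp]; ring) (by rw [if_neg hq, if_neg hp, if_neg hp]; ring)
          (by rw [if_neg hq, if_neg hp, if_neg hp, if_neg hp]; ring)
        rw [one_mul] at this
        refine this.trans ?_
        refine ⟨lf (a i) (X 0) ^ 3, ?_⟩
        ring

end main

end Pool.Agent.DP.H31
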