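import Pool.Agent.Helper50_DP.Stmts

/-!
# Squad DP, module VAN: all derivatives of order at most `q` in the jets vanish
-/

universe u

open MvPolynomial

noncomputable section

namespace Pool.Agent.DP.H31

variable {N : ℕ}

theorem der_sum {ι : Type*} (s : Finset ι) (f : ι → Derivation ℤ (Pol N) (Pol N)) (P : Pol N) :
    (∑ i ∈ s, f i) P = ∑ i ∈ s, f i P := by
  classical
  induction s using Finset.induction_on with
  | empty => rw [Finset.sum_empty, Finset.sum_empty, Derivation.zero_apply]
  | insert a s ha ih => rw [Finset.sum_insert ha, Finset.sum_insert ha, Derivation.add_apply, ih]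

/-- stability under the operators `tE` -/
def Stb (S : Set (Pol N)) : Prop := ∀ (c c' : Fin 3) (P : Pol N), P ∈ S → tE c c' P ∈ S

/-- the union of the stable subsets -/
def uS (J : Ideal (Pol N)) : Set (Pol N) := {P | ∃ S : Set (Pol N), P ∈ S ∧ S ⊆ J ∧ Stb S}

/-- the largest stable ideal in `J` -/
def core (J : Ideal (Pol N)) : Ideal (Pol N) := Ideal.span (uS J)

theorem stb_span {S : Set (Pol N)} (hS : Stb S) : Stb (Ideal.span S : Set (Pol N)) := by
  intro c c' P hP
  have hP' : P ∈ Submodule.span (Pol N) S := hP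
  show tE c c' P ∈ Submodule.span (Pol N) S
  induction hP' using Submodule.span_induction with
  | mem x hx => exact Submodule.subset_span (hS c c' x hx)
  | zero => rw [map_zero]; exact Submodule.zero_mem _
  | add x y hx hy h1 h2 =>
    rw [map_add]
    exact Submodule.add_mem _ (h1 hx) (h2 hy)
  | smul a x hx h1 =>
    rw [smul_eq_mul, Derivation.leibniz]
    exact Submodule.add_mem _ (Submodule.smul_mem _ _ (h1 hx))
      (by rw [smul_eq_mul, mul_comm]; exact Submodule.smul_mem _ _ hx)

theorem core_le (J : Ideal (Pol N)) : core J ≤ J := by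
  refine Ideal.span_le.2 ?_
  rintro P ⟨S, h1, h2, _⟩
  exact h2 h1

theorem core_stb (J : Ideal (Pol N)) : Stb (core J : Set (Pol N)) := by
  apply stb_span
  rintro c c' P ⟨S, h1, h2, h3⟩
  exact ⟨S, h3 c c' P h1, h2, h3⟩

theorem sub_core {J : Ideal (Pol N)} {S : Set (Pol N)} (h : S ⊆ J) (hS : Stb S) :
    S ⊆ core J := fun P hP => Ideal.subset_span ⟨S, hP, h, hS⟩

/-- the elements of `I` with all derivatives in the coefficients in `I` -/
def jj (I : Ideal (Pol N)) : Ideal (Pol N) where
  carrier := {P | P ∈ I ∧ ∀ i c, dA i c P ∈ I}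
  add_mem' := by
    rintro P Q ⟨h1, h2⟩ ⟨h3, h4⟩
    exact ⟨I.add_mem h1 h3, fun i c => by rw [map_add]; exact I.add_mem (h2 i c) (h4 i c)⟩
  zero_mem' := ⟨I.zero_mem, fun i c => by rw [map_zero]; exact I.zero_mem⟩
  smul_mem' := by
    rintro a P ⟨h1, h2⟩
    refine ⟨I.smul_mem a h1, fun i c => ?_⟩
    rw [smul_eq_mul, Derivation.leibniz, smul_eq_mul, smul_eq_mul]
    exact I.add_mem (I.mul_mem_left a (h2 i c)) (I.mul_mem_right _ h1)

theorem jj_le (I : Ideal (Pol N)) : jj I ≤ I := fun _ h => h.1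

/-- the chain of ideals -/
def ii (K : Ideal (Pol N)) : ℕ → Ideal (Pol N)
  | 0 => core K
  | q + 1 => core (jj (ii K q))

theorem ii_succ_le (K : Ideal (Pol N)) (q : ℕ) : ii K (q + 1) ≤ jj (ii K q) := core_le _

theorem ii_le (K : Ideal (Pol N)) (q : ℕ) : ii K q ≤ K := by
  induction q with
  | zero => exact core_le K
  | succ q ih => exact (ii_succ_le K q).trans ((jj_le _).trans ih)

theorem ii_stb (K : Ideal (Pol N)) (q : ℕ) : Stb (ii K q : Set (Pol N)) := by
  cases q with
  | zero => exact core_stb K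
  | succ q => exact core_stb _

theorem sat {Ω : Type u} [Field Ω] (ev : Pol N →ₐ[ℤ] Ω) {L : Pol N}
    (hL : ∀ c c', ∃ n : Pol N, tE c c' L = n * L) (h0 : ev L ≠ 0) (q : ℕ) :
    ∀ Q : Pol N, L * Q ∈ ii (RingHom.ker ev) q → Q ∈ ii (RingHom.ker ev) q := by
  have hst : ∀ q, Stb {Q : Pol N | L * Q ∈ ii (RingHom.ker ev) q} := by
    intro q c c' Q hQ
    obtain ⟨n, hn⟩ := hL c c'
    have h1 := ii_stb (RingHom.ker ev) q c c' _ hQ
    rw [Derivation.leibniz, smul_eq_mul, smul_eq_mul, hn] at h1
    have h2 : L * tE c c' Q = (L * tE c c' Q + Q * (n * L)) - n * (L * Q) := by ring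
    show L * tE c c' Q ∈ ii (RingHom.ker ev) q
    rw [h2]
    exact Ideal.sub_mem _ h1 (Ideal.mul_mem_left _ _ hQ)
  induction q with
  | zero =>
    intro Q hQ
    refine sub_core (J := RingHom.ker ev) ?_ (hst 0) hQ
    intro Q hQ
    have h1 := core_le _ hQ
    rw [RingHom.mem_ker] at h1
    rw [SetLike.mem_coe, RingHom.mem_ker]
    have h2 : ev L * ev Q = 0 := by rw [← map_mul]; exact h1
    exact (mul_eq_zero.1 h2).resolve_left h0
  | succ q ih =>
    intro Q hQ
    refine sub_core (J := jj (ii (RingHom.ker ev) q)) ?_ (hst (q + 1)) hQ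
    intro Q hQ
    obtain ⟨h1, h2⟩ := ii_succ_le _ q hQ
    have h3 := ih Q h1
    refine ⟨h3, fun i c => ih _ ?_⟩
    have h4 := h2 i c
    rw [Derivation.leibniz, smul_eq_mul, smul_eq_mul] at h4
    have h5 : L * dA i c Q = (L * dA i c Q + Q * dA i c L) - Q * dA i c L := by ring
    rw [h5]
    exact Ideal.sub_mem _ h4 (Ideal.mul_mem_right _ _ h3)

theorem tE_inr (c c' r c₀ : Fin 3) : tE (N := N) c c' (X (Sum.inr (r, c₀))) =
    if c₀ = c then X (Sum.inr (r, c')) else 0 := by
  unfold tE xE aE dX dA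
  rw [Derivation.sub_apply, der_sum, der_sum]
  have h1 : ∀ i : Fin N, ((X (Sum.inl (i, c)) : Pol N) • pderiv (Sum.inl (i, c')))
      (X (Sum.inr (r, c₀)) : Pol N) = 0 := by
    intro i
    rw [Derivation.smul_apply, pderiv_X_of_ne (by simp), smul_zero]
  rw [Finset.sum_eq_zero fun i _ => h1 i, sub_zero, Finset.sum_eq_single r]
  · rw [Derivation.smul_apply, pderiv_X]
    by_cases h : c₀ = c
    · rw [if_pos h, h, Pi.single_eq_same, smul_eq_mul, mul_one]
    · rw [if_neg h, Pi.single_eq_of_ne (fun h' => h (by simpa using h')), smul_zero]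
  · intro s _ hs
    rw [Derivation.smul_apply, pderiv_X_of_ne (fun h => hs (by
      have := Sum.inr.inj h
      exact (Prod.mk.inj this).1.symm)), smul_zero]
  · intro h
    exact absurd (Finset.mem_univ r) h

theorem tE_inl (c c' : Fin 3) (i : Fin N) (c₀ : Fin 3) : tE (N := N) c c' (X (Sum.inl (i, c₀))) =
    if c₀ = c' then -X (Sum.inl (i, c)) else 0 := by
  unfold tE xE aE dX dA
  rw [Derivation.sub_apply, der_sum, der_sum]
  have h1 : ∀ r : Fin 3, ((X (Sum.inr (r, c')) : Pol N) • pderiv (Sum.inr (r, c)))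
      (X (Sum.inl (i, c₀)) : Pol N) = 0 := by
    intro r
    rw [Derivation.smul_apply, pderiv_X_of_ne (by simp), smul_zero]
  rw [Finset.sum_eq_zero fun i _ => h1 i, zero_sub, Finset.sum_eq_single i]
  · rw [Derivation.smul_apply, pderiv_X]
    by_cases h : c₀ = c'
    · rw [if_pos h, h, Pi.single_eq_same, smul_eq_mul, mul_one]
    · rw [if_neg h, Pi.single_eq_of_ne (fun h' => h (by simpa using h')), smul_zero, neg_zero]
  · intro s _ hs
    rw [Derivation.smul_apply, pderiv_X_of_ne (fun h => hs (by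
      have := Sum.inl.inj h
      exact (Prod.mk.inj this).1.symm)), smul_zero]
  · intro h
    exact absurd (Finset.mem_univ i) h

theorem tE_ell (c c' : Fin 3) (i : Fin N) : tE c c' (ell i) = 0 := by
  unfold ell
  rw [map_sum]
  have h : ∀ q : Fin 3, tE (N := N) c c' (X (Sum.inl (i, q)) * X (Sum.inr (0, q))) =
      (if q = c then X (Sum.inl (i, q)) * X (Sum.inr (0, c')) else 0) +
        (if q = c' then -(X (Sum.inr (0, q)) * X (Sum.inl (i, c))) else 0) := by
    intro q
    rw [Derivation.leibniz, tE_inr, tE_inl, smul_eq_mul, smul_eq_mul, mul_ite, mul_ite, mul_zero,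
      mul_zero, mul_neg]
  rw [Finset.sum_congr rfl fun q _ => h q, Finset.sum_add_distrib, Finset.sum_ite_eq',
    Finset.sum_ite_eq', if_pos (Finset.mem_univ _), if_pos (Finset.mem_univ _)]
  ring

/-- the matrix of the jets -/
def jm (N : ℕ) : Matrix (Fin 3) (Fin 3) (Pol N) := Matrix.of fun r c => X (Sum.inr (r, c))

theorem tE_det (c c' : Fin 3) : ∃ n : Pol N, tE c c' (jm N).det = n * (jm N).det := by
  refine ⟨if c = c' then 1 else 0, ?_⟩
  rw [Matrix.det_fin_three]
  simp only [map_add, map_sub, Derivation.leibniz, jm, Matrix.of_apply, tE_inr, smul_eq_mul]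
  fin_cases c <;> fin_cases c' <;> simp <;> ring

theorem dX_mem {Ω : Type u} [Field Ω] (ev : Pol N →ₐ[ℤ] Ω)
    (hdet : (Matrix.of fun r c : Fin 3 => ev (X (Sum.inr (r, c)))).det ≠ 0) (q : ℕ) {P : Pol N}
    (hP : P ∈ ii (RingHom.ker ev) (q + 1)) (r c : Fin 3) :
    dX r c P ∈ ii (RingHom.ker ev) q := by
  have hP' := ii_succ_le _ q hP
  -- the operators `xE`
  have hx : ∀ c', xE c c' P ∈ ii (RingHom.ker ev) q := by
    intro c'
    have h1 : xE c c' P = tE c c' P + aE c c' P := by
      unfold tE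
      rw [Derivation.sub_apply]
      ring
    rw [h1]
    refine Ideal.add_mem _ ?_ ?_
    · exact (ii_succ_le _ q (ii_stb _ (q + 1) c c' P hP)).1
    · unfold aE
      rw [der_sum]
      refine Ideal.sum_mem _ fun i _ => ?_
      rw [Derivation.smul_apply, smul_eq_mul]
      exact Ideal.mul_mem_left _ _ (hP'.2 i c')
  -- Cramer
  have hv : (jm N).transpose.mulVec (fun r => dX r c P) = fun c' => xE c c' P := by
    funext c'
    unfold xE
    rw [der_sum]
    unfold Matrix.mulVec dotProduct
    refine Finset.sum_congr rfl fun r _ => ?_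
    rw [Derivation.smul_apply, smul_eq_mul]
    rfl
  have h2 : (jm N).transpose.adjugate.mulVec (fun c' => xE c c' P) =
      (jm N).det • fun r => dX r c P := by
    rw [← hv, Matrix.mulVec_mulVec, Matrix.adjugate_mul, Matrix.det_transpose,
      Matrix.smul_mulVec, Matrix.one_mulVec]
  have h3 : (jm N).det * dX r c P ∈ ii (RingHom.ker ev) q := by
    have h4 := congrFun h2 r
    rw [Pi.smul_apply, smul_eq_mul] at h4
    rw [← h4]
    unfold Matrix.mulVec dotProduct
    exact Ideal.sum_mem _ fun c' _ => Ideal.mul_mem_left _ _ (hx c')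
  refine sat ev (L := (jm N).det) (fun c c' => tE_det c c') ?_ q _ h3
  have h5 : ev (jm N).det = (Matrix.of fun r c : Fin 3 => ev (X (Sum.inr (r, c)))).det := by
    rw [Matrix.det_fin_three, Matrix.det_fin_three]
    simp only [map_add, map_sub, map_mul, jm, Matrix.of_apply]
  rw [h5]
  exact hdet

/-- **VAN.** -/
theorem van : VanStmt.{u} := by
  intro N Ω _ ev G hmon h0 htE hdA hell hdet
  have hG : ∀ q, G q ⊆ ii (RingHom.ker ev) q := by
    intro q
    induction q with
    | zero =>
      refine sub_core (J := RingHom.ker ev) ?_ fun c c' P hP => htE 0 c c' P hP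
      intro P hP
      rw [SetLike.mem_coe, RingHom.mem_ker]
      exact h0 P hP
    | succ q ih =>
      refine sub_core (J := jj (ii (RingHom.ker ev) q)) ?_ fun c c' P hP => htE (q + 1) c c' P hP
      intro P hP
      refine ⟨ih (hmon q hP), fun i c => ?_⟩
      have h1 := ih (hdA q i c P hP)
      have hs := sat ev (L := ell i) (fun c c' => ⟨0, by rw [tE_ell, zero_mul]⟩) (hell i) q
      have h2 : ell i ^ 3 * dA i c P = ell i * (ell i * (ell i * dA i c P)) := by ring
      rw [h2] at h1
      exact hs _ (hs _ (hs _ h1))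
  have hw : ∀ (l : List (Fin 3 × Fin 3)) (q : ℕ) (P : Pol N), l.length ≤ q →
      P ∈ ii (RingHom.ker ev) q →
      l.foldr (fun p Q => dX p.1 p.2 Q) P ∈ ii (RingHom.ker ev) (q - l.length) := by
    intro l
    induction l with
    | nil => intro q P _ hP; exact hP
    | cons p l ih =>
      intro q P hq hP
      rw [List.length_cons] at hq
      have h1 := ih q P (by omega) hP
      have h2 : q - l.length = (q - (p :: l).length) + 1 := by
        rw [List.length_cons]
        omega
      rw [h2] at h1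
      exact dX_mem ev hdet _ h1 p.1 p.2
  intro q P hP l hl
  have h1 := ii_le _ _ (hw l q P hl (hG q hP))
  rw [RingHom.mem_ker] at h1
  exact h1

end Pool.Agent.DP.H31
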